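import Pool.Agent.Helper396.Eff

/-!
Effective Birkhoff theorem for lower semicomputable functions, without ergodicity.
-/

set_option autoImplicit false

namespace Pool.Agent.Results.MP_05754a_lc.LscBirkhoff

open MeasureTheory Filter Topology
open scoped ENNReal

/-- The left shift `T` on Cantor space `{0,1}^ℕ` (sequences `ℕ → Bool`). -/
def shift (ω : ℕ → Bool) : ℕ → Bool := fun n => ω (n + 1)

/-- The cylinder `[x]`: sequences whose first `|x|` terms are the string `x`. -/
def Cyl (x : List Bool) : Set (ℕ → Bool) := {ω | (List.range x.length).map ω = x}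

/-- A family of sets `U i` is uniformly effectively open: there is a computably enumerable set
of pairs `(i, x)` such that each `U i` is the union of the cylinders `[x]` with `(i, x)`
enumerated. -/
def UnifEffOpen {ι : Type} [Primcodable ι] (U : ι → Set (ℕ → Bool)) : Prop :=
  ∃ E : ι × List Bool → Prop, REPred E ∧ ∀ i, U i = ⋃ x ∈ {x | E (i, x)}, Cyl x

/-- `ω` is Martin-Löf random for `P`: it is outside the intersection of every decreasing
uniformly effectively open sequence `U m` with `P (U m) ≤ 2 ^ (-m)`. -/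
def MLRandom (P : Measure (ℕ → Bool)) (ω : ℕ → Bool) : Prop :=
  ∀ U : ℕ → Set (ℕ → Bool), UnifEffOpen U → Antitone U → (∀ m, P (U m) ≤ (2⁻¹ : ℝ≥0∞) ^ m) →
    ω ∉ ⋂ m, U m

/-- The rational number `(a - b) / (c + 1)` coded by a triple of naturals. -/
noncomputable def rat (q : ℕ × ℕ × ℕ) : ℝ := ((q.1 : ℝ) - q.2.1) / (q.2.2 + 1)

/-- `f` is lower semicomputable: the sets `{f > q}`, `q` rational, are effectively open uniformly
in (codes of) `q`. -/
def LowerSemicomputable (f : (ℕ → Bool) → ℝ) : Prop :=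
  UnifEffOpen fun q : ℕ × ℕ × ℕ => {ω | rat q < f ω}

/-- The average of the first `n` values of `f` along the orbit of `ω`. -/
noncomputable def avg (f : (ℕ → Bool) → ℝ) (ω : ℕ → Bool) (n : ℕ) : ℝ :=
  (∑ k ∈ Finset.range n, f (shift^[k] ω)) / n

/-- The average of `f` along the orbit of `ω` exists in `(-∞, +∞]`. -/
def AverageExists (f : (ℕ → Bool) → ℝ) (ω : ℕ → Bool) : Prop :=
  (∃ L : ℝ, Tendsto (avg f ω) atTop (𝓝 L)) ∨ Tendsto (avg f ω) atTop atTop

open Pool.Agent.Helper396 in
theorem shift_eq : shift = sh := rfl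

open Pool.Agent.Helper396 in
theorem mem_Cyl {x : List Bool} {ω : ℕ → Bool} : ω ∈ Cyl x ↔ pre ω x.length = x := Iff.rfl

open Pool.Agent.Helper396 in
theorem pre_mem (ω : ℕ → Bool) (n : ℕ) : ω ∈ Cyl (pre ω n) := by
  rw [mem_Cyl, pre_length]

theorem isOpen_Cyl (x : List Bool) : IsOpen (Cyl x) := by
  have : Cyl x = ⋂ i ∈ Finset.range x.length, (fun ω : ℕ → Bool => ω i) ⁻¹' {x.getD i false} := by
    ext ω
    simp only [Set.mem_iInter, Set.mem_preimage, Set.mem_singleton_iff, Finset.mem_range]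
    constructor
    · intro h i hi
      exact (Pool.Agent.Helper396.ext_of_cyl (mem_Cyl.1 h) hi).symm
    · intro h
      rw [mem_Cyl]
      apply List.ext_getElem
      · rw [Pool.Agent.Helper396.pre_length]
      · intro i h1 h2
        have := h i h2
        simp [Pool.Agent.Helper396.pre, this, h2]
  rw [this]
  exact isOpen_biInter_finset fun i _ => (isOpen_discrete _).preimage (continuous_apply i)

theorem UnifEffOpen.isOpen {ι : Type} [Primcodable ι] {U : ι → Set (ℕ → Bool)}
    (h : UnifEffOpen U) (i : ι) : IsOpen (U i) := by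
  obtain ⟨E, _, hE⟩ := h
  rw [hE i]
  exact isOpen_biUnion fun x _ => isOpen_Cyl x

theorem bddBelow {f : (ℕ → Bool) → ℝ} (hf : LowerSemicomputable f) :
    ∃ n0 : ℕ, ∀ ω, -(n0 : ℝ) < f ω := by
  have hopen : ∀ n : ℕ, IsOpen {ω | -(n : ℝ) < f ω} := by
    intro n
    have := UnifEffOpen.isOpen hf (0, n, 0)
    simpa [rat] using this
  obtain ⟨n, hn⟩ := isCompact_univ.elim_directed_cover (fun n : ℕ => {ω | -(n : ℝ) < f ω}) hopen
    (by
      intro ω _
      obtain ⟨n, hn⟩ := exists_nat_gt (-f ω)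
      exact Set.mem_iUnion.2 ⟨n, by show -(n : ℝ) < f ω; linarith⟩)
    (Monotone.directed_le fun m n hmn ω hω => by
      have : (m : ℝ) ≤ n := by exact_mod_cast hmn
      have hω' : -(m : ℝ) < f ω := hω
      show -(n : ℝ) < f ω
      linarith)
  exact ⟨n, fun ω => hn (Set.mem_univ ω)⟩

open Pool.Agent.Helper396 in
/-- for a random point the oscillation of bounded computable monotone families is excluded -/
theorem no_osc {P : Measure (ℕ → Bool)} [IsProbabilityMeasure P]
    (hP : MeasurePreserving shift P P) {ω : ℕ → Bool} (hω : MLRandom P ω)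
    {G : ℕ → (ℕ → Bool) → ℕ} (hmono : ∀ y, Monotone fun s => G s y) {B : ℕ}
    (hB : ∀ s y, G s y ≤ B)
    (hdep : ∀ s y y', (∀ i < 2 * s + 1, y i = y' i) → G s y = G s y')
    (hG : Computable (fun p : ℕ × List Bool => G p.1 (ext p.2))) (α : ℕ) :
    ¬ ((∃ᶠ m in atTop, SS sh G ω m m ≤ α * m) ∧
      (∃ᶠ n in atTop, ∃ r, (α + 2) * n ≤ SS sh G ω n r)) := by
  rintro ⟨h1, h2⟩
  have hmem : ∀ N, ω ∈ WitAll sh G α B N := by
    intro N
    exact wit_of_frequently (SS_nice sh G hmono B hB ω) h1 h2 N 0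
  have hpow : Computable (fun m : ℕ => (α + 2) * 2 ^ m) := by
    have h3 : Primrec (fun m : ℕ => 2 ^ m) := by
      refine (Primrec.nat_rec₁ 1 ((Primrec.nat_mul.comp (Primrec.const 2)
        (Primrec.snd)).to₂ : Primrec₂ fun (_ : ℕ) (y : ℕ) => 2 * y)).of_eq fun m => ?_
      induction m with
      | zero => rfl
      | succ m ih => rw [pow_succ, ← ih]; simp only; ring
    exact (Primrec.nat_mul.comp (Primrec.const (α + 2)) h3).to_comp
  obtain ⟨E, hE, hEspec⟩ := exists_test hdep hG α B (fun m => (α + 2) * 2 ^ m) hpow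
  have hU : UnifEffOpen (fun m => WitAll sh G α B ((α + 2) * 2 ^ m)) := by
    refine ⟨E, hE, fun m => ?_⟩
    ext y
    rw [hEspec m y]
    simp only [Set.mem_iUnion, Set.mem_ofPred_eq, mem_Cyl, exists_prop]
  have hanti : Antitone (fun m => WitAll sh G α B ((α + 2) * 2 ^ m)) := by
    intro m m' hm
    exact WitAll_anti sh G α B (Nat.mul_le_mul_left _ (Nat.pow_le_pow_right (by norm_num) hm))
  have hmeas : ∀ m, P (WitAll sh G α B ((α + 2) * 2 ^ m)) ≤ (2⁻¹ : ℝ≥0∞) ^ m := by
    intro m
    have h3 := measure_WitAll P (T := sh) hP (G := G) (fun s => meas_of_dep (hdep s)) hmono hB α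
      ((α + 2) * 2 ^ m)
    set p := P (WitAll sh G α B ((α + 2) * 2 ^ m)) with hp
    have h4 : ((α : ℝ≥0∞) + 2) * (2 ^ m * p) ≤ ((α : ℝ≥0∞) + 2) * 1 := by
      rw [mul_one, ← mul_assoc]
      refine le_trans (le_of_eq ?_) h3
      push_cast
      ring
    have h5 : (2 : ℝ≥0∞) ^ m * p ≤ 1 := by
      refine (ENNReal.mul_le_mul_iff_right ?_ ?_).1 h4
      · simp
      · exact ENNReal.add_ne_top.2 ⟨ENNReal.natCast_ne_top α, by norm_num⟩
    rw [ENNReal.inv_pow.symm]
    rw [ENNReal.le_inv_iff_mul_le, mul_comm]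
    exact h5
  exact hω _ hU hanti hmeas (Set.mem_iInter.2 fun m => hmem _)

open Pool.Agent.Helper396 in
/-- **Effective Birkhoff theorem for lower semicomputable functions.**  For every
shift-invariant probability measure `P` on Cantor space (ergodic or not), every lower
semicomputable `f` and every Martin-Löf `P`-random `ω`, the average of `f` along the orbit of `ω`
exists. -/
theorem result (P : Measure (ℕ → Bool)) [IsProbabilityMeasure P]
    (hP : MeasurePreserving shift P P) (f : (ℕ → Bool) → ℝ) (hf : LowerSemicomputable f)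
    (ω : ℕ → Bool) (hω : MLRandom P ω) : AverageExists f ω := by
  obtain ⟨n0, hn0⟩ := bddBelow hf
  obtain ⟨E, hE, hEf⟩ := hf
  obtain ⟨c, hc⟩ := code_of_re hE
  -- levels
  have hlev : ∀ (D j : ℕ) (y : ℕ → Bool),
      (∃ m, acc c (n0 * (D + 1)) D m j y = true) ↔ (j : ℝ) < ((D : ℝ) + 1) * (f y + n0) := by
    intro D j y
    have hD : (0 : ℝ) < (D : ℝ) + 1 := by positivity
    have e1 : (j : ℝ) < ((D : ℝ) + 1) * (f y + n0) ↔ rat (j, n0 * (D + 1), D) < f y := by
      unfold rat
      rw [div_lt_iff₀ hD]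
      push_cast
      constructor <;> intro h <;> nlinarith
    have e2 : rat (j, n0 * (D + 1), D) < f y ↔
        ∃ x, E ((j, n0 * (D + 1), D), x) ∧ y ∈ Cyl x := by
      have := Set.ext_iff.1 (hEf (j, n0 * (D + 1), D)) y
      simpa only [Set.mem_ofPred_eq, Set.mem_iUnion, exists_prop] using this
    rw [e1, e2]
    constructor
    · rintro ⟨m, hm⟩
      unfold acc at hm
      rw [List.any_eq_true] at hm
      obtain ⟨l, _, hl⟩ := hm
      exact ⟨pre y l, (hc _).2 ⟨m, hl⟩, pre_mem y l⟩
    · rintro ⟨x, hx, hy⟩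
      obtain ⟨k, hk⟩ := (hc _).1 hx
      refine ⟨max k x.length, ?_⟩
      unfold acc
      rw [List.any_eq_true]
      refine ⟨x.length, List.mem_range.2 (by omega), ?_⟩
      rw [mem_Cyl.1 hy]
      exact ev_mono (le_max_left _ _) hk
  -- the level function
  set lev : ℕ → (ℕ → Bool) → ℕ := fun D y => ⌈((D : ℝ) + 1) * (f y + n0)⌉₊ - 1 with hlevdef
  have hlt : ∀ (D j : ℕ) (y : ℕ → Bool),
      j < lev D y ↔ ((j + 1 : ℕ) : ℝ) < ((D : ℝ) + 1) * (f y + n0) := by
    intro D j y
    rw [← Nat.lt_ceil]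
    simp only [hlevdef]
    omega
  have hFle : ∀ (D m : ℕ) (y : ℕ → Bool), FF c (n0 * (D + 1)) D m y ≤ lev D y := by
    intro D m y
    unfold FF
    calc ∑ j ∈ Finset.range m, (if acc c (n0 * (D + 1)) D m (j + 1) y = true then 1 else 0)
        ≤ ∑ j ∈ Finset.range m, (if j < lev D y then 1 else 0) := by
          refine Finset.sum_le_sum fun j _ => ?_
          by_cases h : acc c (n0 * (D + 1)) D m (j + 1) y = true
          · rw [if_pos h, if_pos ((hlt D j y).2 ((hlev D (j + 1) y).1 ⟨m, h⟩))]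
          · rw [if_neg h]; exact Nat.zero_le _
      _ ≤ lev D y := by
          rw [Finset.sum_boole]
          have : (Finset.range m).filter (fun j => j < lev D y) ⊆ Finset.range (lev D y) := by
            intro j hj
            rw [Finset.mem_filter] at hj
            exact Finset.mem_range.2 hj.2
          have := Finset.card_le_card this
          rw [Finset.card_range] at this
          exact_mod_cast this
  have hFeq : ∀ (D : ℕ) (y : ℕ → Bool), ∃ m, FF c (n0 * (D + 1)) D m y = lev D y := by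
    intro D y
    have h1 : ∀ j, ∃ m, j < lev D y → acc c (n0 * (D + 1)) D m (j + 1) y = true := by
      intro j
      by_cases hj : j < lev D y
      · obtain ⟨m, hm⟩ := (hlev D (j + 1) y).2 ((hlt D j y).1 hj)
        exact ⟨m, fun _ => hm⟩
      · exact ⟨0, fun h => absurd h hj⟩
    choose st hst using h1
    refine ⟨max (lev D y) ((Finset.range (lev D y)).sup st), le_antisymm (hFle _ _ _) ?_⟩
    set m := max (lev D y) ((Finset.range (lev D y)).sup st) with hm
    unfold FF
    calc lev D y = ∑ j ∈ Finset.range (lev D y), 1 := by simp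
      _ ≤ ∑ j ∈ Finset.range (lev D y),
            (if acc c (n0 * (D + 1)) D m (j + 1) y = true then 1 else 0) := by
          refine Finset.sum_le_sum fun j hj => ?_
          have h2 : st j ≤ m := (Finset.le_sup (f := st) hj).trans (le_max_right _ _)
          rw [if_pos (acc_mono c _ _ h2 (hst j (Finset.mem_range.1 hj)))]
      _ ≤ _ := Finset.sum_le_sum_of_subset (Finset.range_mono (le_max_left _ _))
  -- averages of the levels
  have hNB : ∀ D M : ℕ, NB (gg M fun s i => FF c (n0 * (D + 1)) D s (sh^[i] ω)) := by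
    intro D M c' α
    rintro ⟨h1, h2⟩
    have hSS : ∀ w s, SS sh (fun s y => c' * GG c (n0 * (D + 1)) D M s y) ω w s
        = c' * ∑ i ∈ Finset.range w,
            gg M (fun s i => FF c (n0 * (D + 1)) D s (sh^[i] ω)) s i := by
      intro w s
      unfold SS
      rw [Finset.mul_sum]
      refine Finset.sum_congr rfl fun i _ => ?_
      simp only
      rw [GG_iter]
    refine no_osc hP hω (G := fun s y => c' * GG c (n0 * (D + 1)) D M s y) (B := c' * M)
      ?_ ?_ ?_ ?_ α ⟨?_, ?_⟩
    · intro y s s' h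
      exact Nat.mul_le_mul_left _ (GG_mono c _ _ M y h)
    · intro s y
      exact Nat.mul_le_mul_left _ (GG_le c _ _ M s y)
    · intro s y y' h
      rw [GG_congr c _ _ h]
    · exact c_mul.comp (Computable.const c') (comp_GG c (n0 * (D + 1)) D M)
    · refine h1.mono fun n hn => ?_
      rw [hSS]; exact hn
    · refine h2.mono fun n hn => ?_
      obtain ⟨s, hs⟩ := hn
      exact ⟨s, by rw [hSS]; exact hs⟩
  have hconv : ∀ D : ℕ,
      (∃ H : ℝ, Tendsto (fun n : ℕ =>
        (∑ i ∈ Finset.range n, (lev D (sh^[i] ω) : ℝ)) / n) atTop (𝓝 H)) ∨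
      Tendsto (fun n : ℕ => (∑ i ∈ Finset.range n, (lev D (sh^[i] ω) : ℝ)) / n) atTop atTop := by
    intro D
    have hmono : ∀ i, Monotone fun s => FF c (n0 * (D + 1)) D s (sh^[i] ω) :=
      fun i => FF_mono c _ _ _
    have hfin : Final (fun s i => FF c (n0 * (D + 1)) D s (sh^[i] ω))
        (fun i => lev D (sh^[i] ω)) :=
      ⟨fun s i => hFle D s _, fun n => a_le_b hmono (fun i => hFeq D _) (fun s i => hFle D s _) n⟩
    exact nat_main hmono hfin (hNB D)
  have hclose : ∀ D i : ℕ,
      |((D : ℝ) + 1) * (f (sh^[i] ω) + n0) - (lev D (sh^[i] ω) : ℝ)| ≤ 1 := by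
    intro D i
    set z : ℝ := ((D : ℝ) + 1) * (f (sh^[i] ω) + n0) with hz
    have hz0 : 0 < z := by
      have := hn0 (sh^[i] ω)
      have hD : (0 : ℝ) < (D : ℝ) + 1 := by positivity
      exact mul_pos hD (by linarith)
    have h1 : 0 < ⌈z⌉₊ := Nat.ceil_pos.2 hz0
    have h2 : ((lev D (sh^[i] ω) : ℕ) : ℝ) = (⌈z⌉₊ : ℝ) - 1 := by
      simp only [hlevdef]
      rw [← hz, Nat.cast_sub (by omega)]
      simp
    have h3 := Nat.le_ceil z
    have h4 := Nat.ceil_lt_add_one hz0.le
    rw [h2, abs_le]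
    constructor <;> linarith
  have := real_main (x := fun i => f (sh^[i] ω)) (n0 := n0) (b := fun D i => lev D (sh^[i] ω))
    hclose hconv
  exact this

end Pool.Agent.Results.MP_05754a_lc.LscBirkhoff
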